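import Pool.Agent.W890.SF.Stm2

/-!
# Project SAM: the two-point bound, general mean
-/

set_option autoImplicit false

namespace Pool.Agent.W597.SAM

open Pool.Agent.W890.SF

theorem t2g (h1 : S_BAS) (h2 : S_IND) (h3 : S_UNI) : S_T2G := by
  intro r hr x hx hx1 hrx a b q hT
  obtain ⟨a0, b0, q0, q1, mean⟩ := hT
  have hsum : ∑ i, b i * q i = r * x - ∑ i, a i := by
    have : ∀ i, b i * q i = x - a i := fun i => by linarith [mean i]
    rw [Finset.sum_congr rfl fun i _ => this i, Finset.sum_sub_distrib]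
    simp
  have ha : 0 ≤ ∑ i, a i := Finset.sum_nonneg fun i _ => a0 i
  have hbq : 0 ≤ ∑ i, b i * q i := Finset.sum_nonneg fun i _ => mul_nonneg (b0 i).le (q0 i)
  obtain ⟨c, hc⟩ : ∃ c : ℝ, c = 1 - ∑ i, a i := ⟨_, rfl⟩
  have hρ : c - ∑ i, b i * q i = 1 - r * x := by rw [hsum, hc]; ring
  have hρ0 : 0 < 1 - r * x := by linarith
  have hc0 : 0 < c := by linarith
  have hc1 : c ≤ 1 := by linarith
  have hb : ∀ i ∈ (Finset.univ : Finset (Fin r)), 0 < b i ∧ 0 ≤ q i ∧ q i < 1 :=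
    fun i _ => ⟨b0 i, q0 i, q1 i⟩
  obtain ⟨u1, u2, u3, u4, u5⟩ := h1 (Fin r) b q c Finset.univ hc0 hb
  have hPP : PP a b q = PU b q c Finset.univ := by
    unfold PP
    rw [hc]
  rw [hρ] at u4
  rw [hPP]
  have hI := fun w => h2 (Fin r) b q c x w Finset.univ hc0 hb
    (fun i _ => by linarith [mean i, a0 i]) hx
  rw [hρ] at hI
  generalize PU b q c Finset.univ = U at u1 u2 u3 u4 hI ⊢
  generalize PG b q c Finset.univ = G at u3 u4 u5 hI ⊢
  obtain ⟨w, hw⟩ : ∃ w : ℝ, w = G / U := ⟨_, rfl⟩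
  have hwU : G = w * U := by
    rw [hw]
    field_simp
  have hw0 : 0 < w := by rw [hw]; exact div_pos u5 u1
  have hwc : w ≤ c := by
    rw [hw, div_le_iff₀ u1]
    exact u3
  have hwρ : 1 - r * x ≤ w := by
    rw [hw, le_div_iff₀ u1]
    nlinarith
  have e1 : (1 : ℝ) - (r - 1) * x = (1 - r * x) + x := by ring
  rw [e1]
  by_cases hwx : w ≤ (1 - r * x) + x
  · refine (min_le_right _ _).trans ?_
    rw [div_le_iff₀ (by linarith)]
    calc 1 - r * x ≤ G := u4
      _ = U * w := by rw [hwU, mul_comm]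
      _ ≤ U * ((1 - r * x) + x) := mul_le_mul_of_nonneg_left hwx u1.le
  · push Not at hwx
    have hxw : x ≤ w := by linarith
    have k1 := hI w hxw (by rw [hwU]) hwρ
    have k2 := h3 x (1 - r * x) w hx hx1 hρ0 hwx.le (by linarith)
    have e : (1 - (1 - r * x)) / x = (r : ℝ) := by
      field_simp
      ring
    rw [e, Real.rpow_natCast] at k2
    rw [min_comm]
    refine k2.trans ?_
    rw [hwU] at k1
    exact le_of_mul_le_mul_left k1 hw0

end Pool.Agent.W597.SAM
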